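import Pool.Agent.Helper24.FL.Defs

/-! FL parts SQUARE, TRIANGLE and INTER. -/

set_option autoImplicit false

namespace Pool.Agent.Helper48.FL

open Pool.Agent.Helper24.FL

variable {G : Type} [Group G] {m R : ℕ} (D : Data G m R)

lemma fixAll {i j k : Fin 3} (hi : i ≠ k) (hj : j ≠ k) {h : G} (hh : h ∈ D.E i ⊔ D.E j) :
    D.κ k h = h := by
  have hle : D.E i ⊔ D.E j ≤ MonoidHom.eqLocus (D.κ k) (MonoidHom.id G) :=
    sup_le (fun e he => D.fix k i hi e he) (fun e he => D.fix k j hj e he)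
  exact hle hh

lemma kap {i j : Fin 3} (hij : j ≠ i) {h : G} (hh : h ∈ D.E i ⊔ D.E j) : D.κ i h ∈ D.E j := by
  have hle : D.E i ⊔ D.E j ≤ (D.E j).comap (D.κ i) := by
    refine sup_le (fun e he => ?_) (fun e he => ?_)
    · rw [Subgroup.mem_comap, D.kill i e he]
      exact Subgroup.one_mem _
    · rw [Subgroup.mem_comap, D.fix i j hij e he]
      exact he
  exact hle hh

lemma kap' {i j : Fin 3} (hij : j ≠ i) {h : G} (hh : h ∈ D.E j ⊔ D.E i) : D.κ i h ∈ D.E j :=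
  kap D hij (by rwa [sup_comm])

lemma fin3_cases : ∀ i j k : Fin 3, i ≠ j → i ≠ k → j ≠ k →
    (j = i + 1 ∧ k = i + 2) ∨ (j = i + 2 ∧ k = i + 1) := by decide

lemma fin3_ne : ∀ i : Fin 3, i ≠ i + 1 ∧ i ≠ i + 2 ∧ i + 1 ≠ i + 2 := by decide

lemma cent' {i j k : Fin 3} (hij : i ≠ j) (hik : i ≠ k) (hjk : j ≠ k) {e : G} (he : e ∈ D.E i)
    (h1 : e ≠ 1) {h : G} (hh : h ∈ D.E j ⊔ D.E k) (hc : e * h = h * e) : h = 1 := by
  rcases fin3_cases i j k hij hik hjk with ⟨rfl, rfl⟩ | ⟨rfl, rfl⟩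
  · exact D.cent i e he h1 h hh hc
  · exact D.cent i e he h1 h (by rwa [sup_comm]) hc

theorem inter' {i j k : Fin 3} (hij : i ≠ j) (hjk : j ≠ k) {g : G}
    (h1 : g ∈ D.E i ⊔ D.E j) (h2 : g ∈ D.E i ⊔ D.E k) : g ∈ D.E i := by
  have h3 : D.κ j g = g := fixAll D hij hjk.symm h2
  have h4 : D.κ j g ∈ D.E i := kap' D hij h1
  rwa [h3] at h4

theorem inter : St_INTER := by
  intro G _ m R D i g h1 h2
  exact inter' D (fin3_ne i).1 (fin3_ne i).2.2 h1 h2

theorem triangle : St_TRIANGLE := by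
  intro G _ m R D g0 g1 g2 h1 h2 h3
  have ka : D.κ 2 (g0⁻¹ * g1) = g0⁻¹ * g1 := fixAll D (by decide) (by decide) h1
  have kb : D.κ 2 (g1⁻¹ * g2) ∈ D.E 1 := kap' D (by decide) h2
  have kc : D.κ 2 (g2⁻¹ * g0) ∈ D.E 0 := kap D (by decide) h3
  set b := D.κ 2 (g1⁻¹ * g2) with hb
  set c := D.κ 2 (g2⁻¹ * g0) with hc
  have habc : g0⁻¹ * g1 * b * c = 1 := by
    rw [← ka, hb, hc, ← map_mul, ← map_mul]
    have : g0⁻¹ * g1 * (g1⁻¹ * g2) * (g2⁻¹ * g0) = 1 := by group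
    rw [this, map_one]
  have ha : g0⁻¹ * g1 = c⁻¹ * b⁻¹ := by
    rw [← mul_inv_rev, eq_inv_iff_mul_eq_one, ← mul_assoc]
    exact habc
  -- `g = g0 c⁻¹ = g1 b`
  have hg : g0 * c⁻¹ = g1 * b := by
    have h4 : g1 = g0 * (c⁻¹ * b⁻¹) := by rw [← ha]; group
    rw [h4]
    group
  refine ⟨g0 * c⁻¹, ?_, ?_, ?_⟩
  · have : (g0 * c⁻¹)⁻¹ * g0 = c := by group
    rw [this]
    exact kc
  · have : (g0 * c⁻¹)⁻¹ * g1 = b⁻¹ := by rw [hg]; group
    rw [this]
    exact (D.E 1).inv_mem kb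
  · refine inter' D (i := 2) (j := 0) (k := 1) (by decide) (by decide) ?_ ?_
    · have : (g0 * c⁻¹)⁻¹ * g2 = c * (g2⁻¹ * g0)⁻¹ := by group
      rw [this]
      exact Subgroup.mul_mem _ ((le_sup_right : D.E 0 ≤ _) kc) (Subgroup.inv_mem _ h3)
    · have : (g0 * c⁻¹)⁻¹ * g2 = b⁻¹ * (g1⁻¹ * g2) := by rw [hg]; group
      rw [this, sup_comm]
      exact Subgroup.mul_mem _ ((le_sup_left : D.E 1 ≤ _) ((D.E 1).inv_mem kb)) h2

theorem square : St_SQUARE := by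
  intro G _ m R D l l' l'' hll hll' hl'l a a' b b' q2 q3 q2' q1 hna
  set h2 := a⁻¹ * b with hh2
  set h3 := b⁻¹ * b' with hh3
  set h2' := b'⁻¹ * a' with hh2'
  set h1 := a'⁻¹ * a with hh1
  have hprod : h2 * h3 * h2' * h1 = 1 := by
    rw [hh2, hh3, hh2', hh1]
    group
  have k2 : D.κ l'' h2 = h2 := fixAll D hll' hl'l q2
  have k2' : D.κ l'' h2' = h2' := fixAll D hll' hl'l q2'
  set x := D.κ l'' h3 with hx
  set z := D.κ l'' h1 with hz
  have xm : x ∈ D.E l' := kap' D hl'l q3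
  have zm : z ∈ D.E l := kap' D hll' q1
  have e1 : h2 * x * h2' * z = 1 := by
    have := congrArg (D.κ l'') hprod
    rwa [map_mul, map_mul, map_mul, map_one, k2, k2'] at this
  have hh : h2' = x⁻¹ * h2⁻¹ * z⁻¹ := by
    have h4 : h2 * x * h2' * z = 1 := e1
    have h5 : h2' = (h2 * x)⁻¹ * (h2 * x * h2' * z) * z⁻¹ := by group
    rw [h5, h4]
    group
  set u3 := h3 * x⁻¹ with hu3
  set u1 := z⁻¹ * h1 with hu1
  have m3 : u3 ∈ D.E l' ⊔ D.E l'' :=
    Subgroup.mul_mem _ q3 (Subgroup.inv_mem _ ((le_sup_left : D.E l' ≤ _) xm))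
  have m1 : u1 ∈ D.E l ⊔ D.E l'' :=
    Subgroup.mul_mem _ (Subgroup.inv_mem _ ((le_sup_left : D.E l ≤ _) zm)) q1
  have e2 : u1 = h2 * u3⁻¹ * h2⁻¹ := by
    have h4 : h2 * u3 * h2⁻¹ * u1 = 1 := by
      rw [hu3, hu1, ← hprod, hh]
      group
    have h5 : u1 = (h2 * u3 * h2⁻¹)⁻¹ * (h2 * u3 * h2⁻¹ * u1) := by group
    rw [h5, h4]
    group
  set y := D.κ l' h2 with hy
  set e := (D.κ l' u3)⁻¹ with he
  have ym : y ∈ D.E l := kap' D hll q2
  have em : e ∈ D.E l'' := Subgroup.inv_mem _ (kap D hl'l.symm m3)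
  have e3 : u1 = y * e * y⁻¹ := by
    have h4 : D.κ l' u1 = u1 := fixAll D hll hl'l.symm m1
    rw [← h4, e2, map_mul, map_mul, map_inv, map_inv]
  set x' := D.κ l h2 with hx'
  set e' := D.κ l u1 with he'
  have xm' : x' ∈ D.E l' := kap D hll.symm q2
  have em' : e' ∈ D.E l'' := kap D hll'.symm m1
  have e4 : u3 = x'⁻¹ * e'⁻¹ * x' := by
    have h4 : D.κ l u3 = u3 := fixAll D hll.symm hll'.symm m3
    have h5 : u3 = h2⁻¹ * u1⁻¹ * h2 := by
      rw [e2]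
      group
    conv_lhs => rw [← h4, h5, map_mul, map_mul, map_inv, map_inv]
  have e5 : e' = e := by
    have h4 : D.κ l' u3 = e'⁻¹ := by
      rw [e4, map_mul, map_mul, map_inv, map_inv, D.kill l' x' xm', D.fix l' l'' hl'l.symm e' em']
      group
    rw [he, h4, inv_inv]
  rw [e5] at e4
  set h := y⁻¹ * h2 * x'⁻¹ with hhd
  have hm : h ∈ D.E l ⊔ D.E l' :=
    Subgroup.mul_mem _ (Subgroup.mul_mem _ (Subgroup.inv_mem _ ((le_sup_left : D.E l ≤ _) ym)) q2)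
      (Subgroup.inv_mem _ ((le_sup_right : D.E l' ≤ _) xm'))
  have hcomm : e * h = h * e := by
    have h4 : y * e * y⁻¹ = h2 * (x'⁻¹ * e⁻¹ * x')⁻¹ * h2⁻¹ := by rw [← e3, ← e4]; exact e2
    have h5 : e * h = y⁻¹ * (y * e * y⁻¹) * h2 * x'⁻¹ := by rw [hhd]; group
    rw [h5, h4, hhd]
    group
  by_cases he1 : e = 1
  · exfalso
    apply hna
    have h4 : u1 = 1 := by rw [e3, he1]; group
    have h5 : h1 = z := by
      have : h1 = z * u1 := by rw [hu1]; group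
      rw [this, h4, mul_one]
    have h6 : a⁻¹ * a' = h1⁻¹ := by rw [hh1]; group
    rw [h6, h5]
    exact Subgroup.inv_mem _ zm
  · have h4 : h = 1 := cent' D hll'.symm hl'l.symm hll em he1 hm hcomm
    have h5 : h2 = y * x' := by
      have : h2 = y * h * x' := by rw [hhd]; group
      rw [this, h4, mul_one]
    have hb : b = a * y * x' := by
      have : b = a * h2 := by rw [hh2]; group
      rw [this, h5]; group
    have ha' : a' = b' * (x⁻¹ * x'⁻¹ * y⁻¹ * z⁻¹) := by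
      have : a' = b' * h2' := by rw [hh2']; group
      rw [this, hh, h5]; group
    refine ⟨a * y, a' * (z * y), ?_, ?_, ?_, ?_, ?_⟩
    · have : (a * y)⁻¹ * a = y⁻¹ := by group
      rw [this]
      exact Subgroup.inv_mem _ ym
    · have : (a * y)⁻¹ * b = x' := by rw [hb]; group
      rw [this]
      exact xm'
    · have : (a' * (z * y))⁻¹ * a' = (z * y)⁻¹ := by group
      rw [this]
      exact Subgroup.inv_mem _ (Subgroup.mul_mem _ zm ym)
    · have : (a' * (z * y))⁻¹ * b' = x' * x := by rw [ha']; group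
      rw [this]
      exact Subgroup.mul_mem _ xm' xm
    · have h6 : (a * y)⁻¹ * (a' * (z * y)) = y⁻¹ * u1⁻¹ * y := by
        rw [hu1, hh1]
        group
      have h7 : y⁻¹ * u1⁻¹ * y = e⁻¹ := by
        rw [e3]
        group
      rw [h6, h7]
      exact Subgroup.inv_mem _ em

end Pool.Agent.Helper48.FL
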